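import Pool.Agent.N266.LS.Stm
import Pool.Agent.Y291.DB.Geo

/-!
# Liouville spheres (project LS of helper266): boxes are contained in geodesic discs (helper407)
-/

set_option autoImplicit false

open MeasureTheory Set

namespace Pool.Agent.N407.LS

open Pool.Agent.N266.LS
open Pool.Agent.Y291.DB (len gdist disc len_nonneg)

theorem sin_sq_le (a b : ℝ) : Real.sin a ^ 2 ≤ 2 * Real.sin b ^ 2 + 2 * (a - b) ^ 2 := by
  have h1 : |Real.sin a - Real.sin b| ≤ |a - b| := by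
    have h2 := Real.sin_sub_sin a b
    have h3 : |Real.sin ((a - b) / 2)| ≤ |(a - b) / 2| := Real.abs_sin_le_abs
    have h4 : |Real.cos ((a + b) / 2)| ≤ 1 := Real.abs_cos_le_one _
    rw [h2, abs_mul, abs_mul]
    have h5 : |(2 : ℝ)| = 2 := abs_of_pos (by norm_num)
    have h6 : |(a - b) / 2| = |a - b| / 2 := by rw [abs_div, h5]
    rw [h5]
    rw [h6] at h3
    have h7 := abs_nonneg (Real.sin ((a - b) / 2))
    have h8 := abs_nonneg (Real.cos ((a + b) / 2))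
    nlinarith
  have h2 : (Real.sin a - Real.sin b) ^ 2 ≤ (a - b) ^ 2 := sq_le_sq.2 h1
  nlinarith [sq_nonneg (Real.sin a - 2 * Real.sin b)]

/-- `D2` at nearby points -/
theorem D2_le {L : ℝ} (_hL : 0 < L) {p q : ℝ × ℝ} {ρ : ℝ} (h1 : |q.1 - p.1| ≤ ρ)
    (h2 : |q.2 - p.2| ≤ ρ) :
    D2 L q ≤ 2 * D2 L p + 2 * ((2 * Real.pi / L) ^ 2 + 1) * ρ ^ 2 := by
  have e1 := sin_sq_le (2 * Real.pi * q.1 / L) (2 * Real.pi * p.1 / L)
  have e2 := sin_sq_le q.2 p.2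
  have e3 : (2 * Real.pi * q.1 / L - 2 * Real.pi * p.1 / L) ^ 2 =
      (2 * Real.pi / L) ^ 2 * (q.1 - p.1) ^ 2 := by ring
  have e4 : (q.1 - p.1) ^ 2 ≤ ρ ^ 2 := sq_le_sq' (by linarith [(abs_le.1 h1).1]) (abs_le.1 h1).2
  have e5 : (q.2 - p.2) ^ 2 ≤ ρ ^ 2 := sq_le_sq' (by linarith [(abs_le.1 h2).1]) (abs_le.1 h2).2
  rw [e3] at e1
  have e6 : (2 * Real.pi / L) ^ 2 * (q.1 - p.1) ^ 2 ≤ (2 * Real.pi / L) ^ 2 * ρ ^ 2 :=
    mul_le_mul_of_nonneg_left e4 (sq_nonneg _)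
  unfold D2
  nlinarith

theorem D2_nn (L : ℝ) (p : ℝ × ℝ) : 0 ≤ D2 L p := by
  unfold D2
  positivity

theorem D2_two (L : ℝ) (p : ℝ × ℝ) : D2 L p ≤ 2 := by
  unfold D2
  have h1 := Real.sin_sq_le_one (2 * Real.pi * p.1 / L)
  have h2 := Real.sin_sq_le_one p.2
  linarith

theorem nn_sq {L lam : ℝ} (hl : 0 < lam) (p : ℝ × ℝ) :
    nn L lam p ^ 2 = 1 + Real.sqrt lam + lam * D2 L p := by
  unfold nn
  rw [Real.sq_sqrt]
  have := D2_nn L p
  positivity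

theorem nn_one {L lam : ℝ} (hl : 0 < lam) (p : ℝ × ℝ) : 1 ≤ nn L lam p := by
  unfold nn
  rw [Real.one_le_sqrt]
  have := D2_nn L p
  have h1 : 0 ≤ lam * D2 L p := by positivity
  have h2 := Real.sqrt_nonneg lam
  linarith

theorem dens_cont {f g : ℝ → ℝ} {L m K : ℝ} (h : LM f g L m K) : Continuous (dens f g) :=
  (h.cf.comp continuous_fst).add (h.cg.comp continuous_snd)

theorem dens_le {f g : ℝ → ℝ} {L m K : ℝ} (h : LM f g L m K) (p : ℝ × ℝ) :
    dens f g p ≤ K * D2 L p := by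
  unfold dens D2
  have h1 := h.uf p.1
  have h2 := h.ug p.2
  linarith

theorem dens_ge {f g : ℝ → ℝ} {L m K : ℝ} (h : LM f g L m K) (p : ℝ × ℝ) :
    m * D2 L p ≤ dens f g p := by
  unfold dens D2
  have h1 := h.lf p.1
  have h2 := h.lg p.2
  linarith

/-- straight curves -/
theorem gdist_seg {ρ : ℝ × ℝ → ℝ} (hρc : Continuous ρ) (L α M b : ℝ) (hb : 0 ≤ b) {p q : ℝ × ℝ}
    (h1 : |q.1 - p.1| ≤ b) (h2 : |q.2 - p.2| ≤ b)
    (hM : ∀ z : ℝ × ℝ, |z.1 - p.1| ≤ b → |z.2 - p.2| ≤ b → ρ z ≤ M) :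
    gdist ρ L α p q ≤ Real.sqrt M * (2 * b) := by
  set γ : ℝ → ℝ × ℝ := fun s => (p.1 + s * (q.1 - p.1), p.2 + s * (q.2 - p.2)) with hγ
  have hc : ContDiff ℝ 1 γ := by
    rw [hγ]
    fun_prop
  have hd : ∀ s, deriv γ s = (q.1 - p.1, q.2 - p.2) := by
    intro s
    have h1 : HasDerivAt (fun s : ℝ => p.1 + s * (q.1 - p.1)) (q.1 - p.1) s := by
      simpa using ((hasDerivAt_id s).mul_const (q.1 - p.1)).const_add p.1
    have h2 : HasDerivAt (fun s : ℝ => p.2 + s * (q.2 - p.2)) (q.2 - p.2) s := by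
      simpa using ((hasDerivAt_id s).mul_const (q.2 - p.2)).const_add p.2
    exact (h1.prodMk h2).deriv
  have hlen : len ρ γ ≤ Real.sqrt M * (2 * b) := by
    have e1 : len ρ γ ≤ ∫ s in (0 : ℝ)..1, Real.sqrt M * (2 * b) := by
      unfold len
      refine intervalIntegral.integral_mono_on zero_le_one ?_ ?_ ?_
      · refine Continuous.intervalIntegrable ?_ _ _
        simp only [hd]
        have : Continuous γ := hc.continuous
        fun_prop
      · exact continuous_const.intervalIntegrable _ _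
      · intro s hs
        rw [hd]
        have h3 : Real.sqrt ((q.1 - p.1) ^ 2 + (q.2 - p.2) ^ 2) ≤ 2 * b := by
          rw [Real.sqrt_le_left (by positivity)]
          nlinarith [sq_abs (q.1 - p.1), sq_abs (q.2 - p.2), abs_nonneg (q.1 - p.1),
            abs_nonneg (q.2 - p.2)]
        have h4 : Real.sqrt (ρ (γ s)) ≤ Real.sqrt M := by
          apply Real.sqrt_le_sqrt
          apply hM
          · show |p.1 + s * (q.1 - p.1) - p.1| ≤ b
            rw [add_sub_cancel_left, abs_mul, abs_of_nonneg hs.1]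
            nlinarith [hs.2, abs_nonneg (q.1 - p.1)]
          · show |p.2 + s * (q.2 - p.2) - p.2| ≤ b
            rw [add_sub_cancel_left, abs_mul, abs_of_nonneg hs.1]
            nlinarith [hs.2, abs_nonneg (q.2 - p.2)]
        exact mul_le_mul h4 h3 (Real.sqrt_nonneg _) (Real.sqrt_nonneg _)
    simpa using e1
  refine le_trans (csInf_le ⟨0, ?_⟩ ⟨γ, hc, ?_, ⟨0, 0, ?_⟩, rfl⟩) hlen
  · rintro _ ⟨γ', _, _, _, rfl⟩
    exact len_nonneg _ _
  · simp [hγ]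
  · simp [hγ]

theorem t_BIN : S_BIN := by
  intro L K C hL hK hC
  obtain ⟨W, hW⟩ : ∃ W : ℝ, W = K * ((2 * Real.pi / L) ^ 2 + 2) := ⟨_, rfl⟩
  have hW0 : 0 < W := by rw [hW]; positivity
  refine ⟨min 1 (C / (4 * (W + 1))), by positivity, min_le_left _ _, ?_⟩
  intro f g m lam h hl p q hq1 hq2
  obtain ⟨β, hβ⟩ : ∃ β : ℝ, β = min 1 (C / (4 * (W + 1))) := ⟨_, rfl⟩
  rw [← hβ] at hq1 hq2
  have hβ0 : 0 < β := by rw [hβ]; positivity
  have hβ1 : β ≤ 1 := by rw [hβ]; exact min_le_left _ _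
  have hβ2 : β * (4 * (W + 1)) ≤ C := by
    have : β ≤ C / (4 * (W + 1)) := by rw [hβ]; exact min_le_right _ _
    rwa [le_div_iff₀ (by positivity)] at this
  obtain ⟨N, hN⟩ : ∃ N : ℝ, N = nn L lam p := ⟨_, rfl⟩
  have hN1 : 1 ≤ N := by rw [hN]; exact nn_one hl p
  have hN0 : 0 < N := by linarith
  have hN2 : N ^ 2 = 1 + Real.sqrt lam + lam * D2 L p := by rw [hN]; exact nn_sq hl p
  rw [← hN] at hq1 hq2
  have hD0 := D2_nn L p
  have hb0 : 0 ≤ β / N := by positivity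
  have h1 := gdist_seg (dens_cont h) L 0 (K * (2 * D2 L p + 2 * ((2 * Real.pi / L) ^ 2 + 1) *
    (β / N) ^ 2)) (β / N) hb0 hq1 hq2 (fun z hz1 hz2 =>
      (dens_le h z).trans (mul_le_mul_of_nonneg_left (D2_le hL hz1 hz2) hK.le))
  show gdist (dens f g) L 0 p q < C / Real.sqrt lam
  refine lt_of_le_of_lt h1 ?_
  have hs : 0 < Real.sqrt lam := Real.sqrt_pos.2 hl
  have hs2 : Real.sqrt lam ^ 2 = lam := Real.sq_sqrt hl.le
  obtain ⟨M, hM⟩ : ∃ M : ℝ, M = K * (2 * D2 L p + 2 * ((2 * Real.pi / L) ^ 2 + 1) *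
    (β / N) ^ 2) := ⟨_, rfl⟩
  rw [← hM]
  have hM0 : 0 ≤ M := by rw [hM]; positivity
  apply lt_of_pow_lt_pow_left₀ 2 (by positivity)
  rw [mul_pow, Real.sq_sqrt hM0, div_pow, hs2]
  -- the two small quotients
  have e1 : D2 L p / N ^ 2 ≤ 1 / lam := by
    rw [div_le_div_iff₀ (by positivity) hl]
    rw [hN2]
    nlinarith
  have e2 : 1 / N ^ 4 ≤ 1 / lam := by
    apply one_div_le_one_div_of_le hl
    have e3 : Real.sqrt lam ≤ N ^ 2 := by
      rw [hN2]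
      have : 0 ≤ lam * D2 L p := by positivity
      linarith
    calc lam = Real.sqrt lam ^ 2 := hs2.symm
      _ ≤ (N ^ 2) ^ 2 := pow_le_pow_left₀ hs.le e3 2
      _ = N ^ 4 := by ring
  have e3 : M * (2 * (β / N)) ^ 2 = 8 * β ^ 2 * K * (D2 L p / N ^ 2 +
      ((2 * Real.pi / L) ^ 2 + 1) * β ^ 2 * (1 / N ^ 4)) := by
    rw [hM]
    field_simp
    ring
  rw [e3]
  have e4 : D2 L p / N ^ 2 + ((2 * Real.pi / L) ^ 2 + 1) * β ^ 2 * (1 / N ^ 4) ≤
      ((2 * Real.pi / L) ^ 2 + 2) * (1 / lam) := by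
    have e5 : ((2 * Real.pi / L) ^ 2 + 1) * β ^ 2 * (1 / N ^ 4) ≤
        ((2 * Real.pi / L) ^ 2 + 1) * 1 * (1 / lam) := by
      have e6 : β ^ 2 ≤ 1 := pow_le_one₀ hβ0.le hβ1
      gcongr
    linarith
  calc 8 * β ^ 2 * K * (D2 L p / N ^ 2 + ((2 * Real.pi / L) ^ 2 + 1) * β ^ 2 * (1 / N ^ 4))
      ≤ 8 * β ^ 2 * K * (((2 * Real.pi / L) ^ 2 + 2) * (1 / lam)) := by gcongr
    _ = 8 * β ^ 2 * W / lam := by rw [hW]; ring
    _ < C ^ 2 / lam := by
      apply div_lt_div_of_pos_right _ hl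
      have e7 : (β * (4 * (W + 1))) ^ 2 ≤ C ^ 2 := pow_le_pow_left₀ (by positivity) hβ2 2
      have e8 : 0 < β ^ 2 := by positivity
      have e9 : 8 * β ^ 2 * W < (β * (4 * (W + 1))) ^ 2 := by
        have : (β * (4 * (W + 1))) ^ 2 = β ^ 2 * (16 * (W + 1) ^ 2) := by ring
        rw [this]
        have : 8 * β ^ 2 * W = β ^ 2 * (8 * W) := by ring
        rw [this]
        apply mul_lt_mul_of_pos_left _ e8
        nlinarith
      linarith

end Pool.Agent.N407.LS
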