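import Pool.Agent.N407.LS.Bin

/-!
# Liouville spheres (project LS of helper266): geodesic discs are contained in boxes (helper407)
-/

set_option autoImplicit false

open MeasureTheory Set

namespace Pool.Agent.N407.LS

open Pool.Agent.N266.LS
open Pool.Agent.Y291.DB (len gdist disc gdist_nonempty)

/-- rounding -/
theorem round_le {T : ℝ} (hT : 0 < T) (a b : ℝ) : ∃ i : ℤ, |a + i * T - b| ≤ T := by
  refine ⟨-⌊(a - b) / T⌋, ?_⟩
  have h1 := Int.floor_le ((a - b) / T)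
  have h2 := Int.lt_floor_add_one ((a - b) / T)
  rw [le_div_iff₀ hT] at h1
  rw [div_lt_iff₀ hT] at h2
  push_cast
  rw [abs_le]
  constructor <;> nlinarith

/-- from a lower bound by a minimum to an upper bound of the square -/
theorem sq_bound {μ S C P Q δ : ℝ} (hμ : 0 < μ) (hS : 1 ≤ S) (hC : 0 < C) (hP : 0 < P)
    (hQ : 0 < Q) (hδ : 0 ≤ δ) (h : μ * min (P * δ ^ 2) (Q * δ) < 2 * C / S) :
    δ ^ 2 * S ≤ 2 * C / (μ * P) + 4 * C ^ 2 / (μ ^ 2 * Q ^ 2) := by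
  have hS0 : 0 < S := by linarith
  have h1 : 0 < 2 * C / (μ * P) := by positivity
  have h2 : 0 < 4 * C ^ 2 / (μ ^ 2 * Q ^ 2) := by positivity
  rcases min_choice (P * δ ^ 2) (Q * δ) with h3 | h3
  · rw [h3, lt_div_iff₀ hS0] at h
    have h4 : δ ^ 2 * S ≤ 2 * C / (μ * P) := by
      rw [le_div_iff₀ (by positivity)]
      nlinarith
    linarith
  · rw [h3, lt_div_iff₀ hS0] at h
    have h4 : δ ^ 2 * S ≤ 4 * C ^ 2 / (μ ^ 2 * Q ^ 2) := by
      rw [le_div_iff₀ (by positivity)]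
      have h5 : 0 ≤ μ * (Q * δ) * S := by positivity
      have h6 : (μ * (Q * δ) * S) ^ 2 ≤ (2 * C) ^ 2 := pow_le_pow_left₀ h5 h.le 2
      have h7 : δ ^ 2 * S * (μ ^ 2 * Q ^ 2) ≤ (μ * (Q * δ) * S) ^ 2 := by
        have h8 : (μ * (Q * δ) * S) ^ 2 = δ ^ 2 * S * (μ ^ 2 * Q ^ 2) * S := by ring
        rw [h8]
        have h9 : 0 ≤ δ ^ 2 * S * (μ ^ 2 * Q ^ 2) := by positivity
        nlinarith
      nlinarith
    linarith

theorem t_DIN (hF : S_FAR) (hN : S_NEAR) : S_DIN := by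
  intro L m K C hL hm _hK hC
  have hpi := Real.pi_pos
  obtain ⟨ω, hω⟩ : ∃ ω : ℝ, ω = 2 * Real.pi / L := ⟨_, rfl⟩
  have hω0 : 0 < ω := by rw [hω]; positivity
  obtain ⟨μ, hμ⟩ : ∃ μ : ℝ, μ = Real.sqrt m := ⟨_, rfl⟩
  have hμ0 : 0 < μ := by rw [hμ]; exact Real.sqrt_pos.2 hm
  obtain ⟨Z1, hZ1⟩ : ∃ Z : ℝ, Z = 2 * C / (μ * (2 / (Real.pi * L))) +
    4 * C ^ 2 / (μ ^ 2 * (1 / Real.pi) ^ 2) := ⟨_, rfl⟩
  obtain ⟨Z2, hZ2⟩ : ∃ Z : ℝ, Z = 2 * C / (μ * (1 / Real.pi ^ 2)) +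
    4 * C ^ 2 / (μ ^ 2 * (1 / Real.pi) ^ 2) := ⟨_, rfl⟩
  have hZ10 : 0 < Z1 := by rw [hZ1]; positivity
  have hZ20 : 0 < Z2 := by rw [hZ2]; positivity
  obtain ⟨A, hA⟩ : ∃ A : ℝ, A = 1 + 2 * (L + 2 * Real.pi) + 8 * C / μ + 4 * (ω + 1) * (Z1 + Z2) :=
    ⟨_, rfl⟩
  have hA8 : 0 < 8 * C / μ := by positivity
  have hAZ : 0 < 4 * (ω + 1) * (Z1 + Z2) := by positivity
  have hA1 : 1 ≤ A := by rw [hA]; linarith
  have hA0 : 0 < A := by linarith
  have hAL : 2 * (L + 2 * Real.pi) ≤ A := by rw [hA]; linarith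
  have hAC : 8 * C ≤ μ * A := by
    have h1 : 8 * C / μ ≤ A := by rw [hA]; linarith
    rw [div_le_iff₀ hμ0] at h1
    linarith
  have hAZ1 : 4 * (ω + 1) * Z1 ≤ A := by
    have : 0 < 4 * (ω + 1) * Z2 := by positivity
    rw [hA]
    linarith
  have hAZ2 : 4 * (ω + 1) * Z2 ≤ A := by
    have : 0 < 4 * (ω + 1) * Z1 := by positivity
    rw [hA]
    linarith
  refine ⟨A, hA0, ?_⟩
  intro f g lam h hl p q hq
  obtain ⟨N, hNd⟩ : ∃ N : ℝ, N = nn L lam p := ⟨_, rfl⟩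
  have hN1 : 1 ≤ N := by rw [hNd]; exact nn_one hl p
  have hN0 : 0 < N := by linarith
  have hN2 : N ^ 2 = 1 + Real.sqrt lam + lam * D2 L p := by rw [hNd]; exact nn_sq hl p
  rw [← hNd]
  obtain ⟨S, hSd⟩ : ∃ S : ℝ, S = Real.sqrt lam := ⟨_, rfl⟩
  have hS0 : 0 < S := by rw [hSd]; exact Real.sqrt_pos.2 hl
  have hS2 : S ^ 2 = lam := by rw [hSd]; exact Real.sq_sqrt hl.le
  obtain ⟨D, hD⟩ : ∃ D : ℝ, D = D2 L p := ⟨_, rfl⟩
  have hD0 : 0 ≤ D := by rw [hD]; exact D2_nn L p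
  have hD2 : D ≤ 2 := by rw [hD]; exact D2_two L p
  rw [← hSd, ← hS2, ← hD] at hN2
  rcases lt_or_ge lam 1 with hlam | hlam
  · -- small `lam`
    have hS1 : S < 1 := by nlinarith
    have hN4 : N ^ 2 ≤ 4 := by
      rw [hN2]
      nlinarith [mul_nonneg hS0.le hD0]
    have hN4' : N ≤ 2 := by nlinarith
    have hAN : L + 2 * Real.pi ≤ A / N := by
      rw [le_div_iff₀ hN0]
      nlinarith
    obtain ⟨i, hi⟩ := round_le hL q.1 p.1
    obtain ⟨j, hj⟩ := round_le (by positivity : 0 < 2 * Real.pi) q.2 p.2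
    exact ⟨i, j, by linarith, by linarith⟩
  · have hS1 : 1 ≤ S := by
      by_contra hcon
      push Not at hcon
      nlinarith
    have hq' : gdist (dens f g) L 0 p q < 2 * (C / Real.sqrt lam) := hq
    obtain ⟨l, ⟨γ, hc, h0, ⟨i, j, h1⟩, rfl⟩, hlen⟩ :=
      exists_lt_of_csInf_lt (gdist_nonempty p q) hq'
    rw [← hSd, mul_div_assoc'] at hlen
    have h11 : (γ 1).1 = q.1 + i * L := by rw [h1]
    have h12 : (γ 1).2 = q.2 + j * (2 * Real.pi) := by rw [h1]; simp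
    refine ⟨i, j, ?_⟩
    obtain ⟨ρ₀, hρ₀⟩ : ∃ ρ₀ : ℝ, ρ₀ = A / N := ⟨_, rfl⟩
    have hρ0 : 0 < ρ₀ := by rw [hρ₀]; positivity
    rw [← h11, ← h12, ← hρ₀]
    have hρN : ρ₀ * N = A := by rw [hρ₀]; field_simp
    rcases le_total (2 * (ω + 1) * A) (D * S) with hcase | hcase
    · -- far from the half periods
      have hDS : 1 ≤ D * S := by nlinarith
      have hDpos : 0 < D := by
        by_contra hcon
        have : D = 0 := le_antisymm (not_lt.1 hcon) hD0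
        rw [this, zero_mul] at hDS
        linarith
      have hN3 : N ^ 2 ≤ 3 * (S ^ 2 * D) := by
        rw [hN2]
        nlinarith
      obtain ⟨d, hd⟩ : ∃ d : ℝ, d = Real.sqrt D / 2 := ⟨_, rfl⟩
      have hd0 : 0 < d := by rw [hd]; have := Real.sqrt_pos.2 hDpos; positivity
      have hd2 : d ^ 2 = D / 4 := by rw [hd, div_pow, Real.sq_sqrt hD0]; norm_num
      have hρ2 : (ω ^ 2 + 1) * ρ₀ ^ 2 ≤ D / 4 := by
        have e1 : S ^ 2 * D ≤ N ^ 2 := by rw [hN2]; linarith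
        have e2 : (ω ^ 2 + 1) * ρ₀ ^ 2 * (S ^ 2 * D) ≤ D / 4 * (S ^ 2 * D) := by
          calc (ω ^ 2 + 1) * ρ₀ ^ 2 * (S ^ 2 * D) ≤ (ω ^ 2 + 1) * ρ₀ ^ 2 * N ^ 2 := by gcongr
            _ = (ω ^ 2 + 1) * A ^ 2 := by rw [← hρN]; ring
            _ ≤ (ω + 1) ^ 2 * A ^ 2 := by
                apply mul_le_mul_of_nonneg_right _ (sq_nonneg A)
                nlinarith
            _ = (2 * (ω + 1) * A) ^ 2 / 4 := by ring
            _ ≤ (D * S) ^ 2 / 4 := by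
                have := pow_le_pow_left₀ (by positivity) hcase 2
                linarith
            _ = D / 4 * (S ^ 2 * D) := by ring
        exact le_of_mul_le_mul_right e2 (by positivity)
      have hbox : ∀ z : ℝ × ℝ, |z.1 - (γ 0).1| ≤ ρ₀ → |z.2 - (γ 0).2| ≤ ρ₀ → d ^ 2 ≤ D2 L z := by
        intro z hz1 hz2
        rw [h0, abs_sub_comm] at hz1 hz2
        have e1 := D2_le hL hz1 hz2
        rw [← hD, ← hω] at e1
        rw [hd2]
        linarith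
      by_contra hcon
      have hend : ρ₀ ≤ |(γ 1).1 - (γ 0).1| ∨ ρ₀ ≤ |(γ 1).2 - (γ 0).2| := by
        rw [h0]
        by_contra h5
        push Not at h5
        exact hcon ⟨h5.1.le, h5.2.le⟩
      have e1 := hF f g L m K h γ d ρ₀ hc hρ0 hd0.le hbox hend
      rw [← hμ] at e1
      have e2 : μ * d * ρ₀ < 2 * C / S := lt_of_le_of_lt e1 hlen
      rw [lt_div_iff₀ hS0] at e2
      -- `N ≤ 4 S d`
      have e3 : N ≤ 4 * (S * d) := by
        apply le_of_sq_le_sq _ (by positivity)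
        calc N ^ 2 ≤ 3 * (S ^ 2 * D) := hN3
          _ ≤ 4 * (S ^ 2 * D) := by
              have : 0 ≤ S ^ 2 * D := by positivity
              linarith
          _ = (4 * (S * d)) ^ 2 := by rw [mul_pow, mul_pow, hd2]; ring
      have e4 : μ * A ≤ 4 * (μ * d * ρ₀ * S) := by
        calc μ * A = μ * (ρ₀ * N) := by rw [hρN]
          _ ≤ μ * (ρ₀ * (4 * (S * d))) := by gcongr
          _ = 4 * (μ * d * ρ₀ * S) := by ring
      linarith
    · -- near the half periods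
      have hN3 : N ^ 2 ≤ 4 * (ω + 1) * A * S := by
        rw [hN2]
        have e1 : S ^ 2 * D ≤ 2 * (ω + 1) * A * S := by
          calc S ^ 2 * D = (D * S) * S := by ring
            _ ≤ 2 * (ω + 1) * A * S := by gcongr
        have e2 : 1 + S ≤ 2 * (ω + 1) * A * S := by
          have e3 : 1 ≤ (ω + 1) * A := by nlinarith
          calc 1 + S ≤ 2 * 1 * S := by linarith
            _ ≤ 2 * ((ω + 1) * A) * S := by gcongr
            _ = 2 * (ω + 1) * A * S := by ring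
        linarith
      have key : ∀ δ Z : ℝ, 0 ≤ δ → δ ^ 2 * S ≤ Z → 4 * (ω + 1) * Z ≤ A → δ ≤ ρ₀ := by
        intro δ Z hδ h5 h6
        apply le_of_sq_le_sq _ hρ0.le
        have e1 : δ ^ 2 * N ^ 2 ≤ ρ₀ ^ 2 * N ^ 2 := by
          calc δ ^ 2 * N ^ 2 ≤ δ ^ 2 * (4 * (ω + 1) * A * S) := by gcongr
            _ = (4 * (ω + 1) * (δ ^ 2 * S)) * A := by ring
            _ ≤ (4 * (ω + 1) * Z) * A := by gcongr
            _ ≤ A * A := by gcongr
            _ = ρ₀ ^ 2 * N ^ 2 := by rw [← hρN]; ring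
        exact le_of_mul_le_mul_right e1 (by positivity)
      have e1 := hN f g L m K h γ hc
      rw [h0, ← hμ] at e1
      constructor
      · refine key _ Z1 (abs_nonneg _) ?_ hAZ1
        rw [hZ1]
        exact sq_bound hμ0 hS1 hC (by positivity) (by positivity) (abs_nonneg _)
          (lt_of_le_of_lt e1.1 hlen)
      · refine key _ Z2 (abs_nonneg _) ?_ hAZ2
        rw [hZ2]
        exact sq_bound hμ0 hS1 hC (by positivity) (by positivity) (abs_nonneg _)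
          (lt_of_le_of_lt e1.2 hlen)

end Pool.Agent.N407.LS
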