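import Pool.Agent.N407.LS.Bin

/-!
# Liouville spheres (project LS of helper266): a curve which leaves a box is long (helper407)
-/

set_option autoImplicit false

open MeasureTheory Set

namespace Pool.Agent.N407.LS

open Pool.Agent.N266.LS
open Pool.Agent.Y291.DB (len gdist disc len_nonneg)

theorem t_FAR : S_FAR := by
  intro f g L m K h γ d ρ₀ hc hρ hd hbox hend
  have hdc : Continuous (deriv γ) := hc.continuous_deriv le_rfl
  have hγc : Continuous γ := hc.continuous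
  have hdd : ∀ s, HasDerivAt γ (deriv γ s) s := fun s =>
    ((hc.differentiable one_ne_zero) s).hasDerivAt
  have hd1 : ∀ s, HasDerivAt (fun s => (γ s).1) (deriv γ s).1 s := fun s =>
    ((ContinuousLinearMap.fst ℝ ℝ ℝ).hasFDerivAt (x := γ s)).comp_hasDerivAt s (hdd s)
  have hd2 : ∀ s, HasDerivAt (fun s => (γ s).2) (deriv γ s).2 s := fun s =>
    ((ContinuousLinearMap.snd ℝ ℝ ℝ).hasFDerivAt (x := γ s)).comp_hasDerivAt s (hdd s)
  have c1 : Continuous fun s => (deriv γ s).1 := hdc.fst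
  have c2 : Continuous fun s => (deriv γ s).2 := hdc.snd
  obtain ⟨u, hu⟩ : ∃ u : ℝ → ℝ, u = fun s => max |(γ s).1 - (γ 0).1| |(γ s).2 - (γ 0).2| := ⟨_, rfl⟩
  have huc : Continuous u := by
    rw [hu]
    exact ((hγc.fst.sub continuous_const).abs).max ((hγc.snd.sub continuous_const).abs)
  have hu0 : u 0 = 0 := by rw [hu]; simp
  have hu1 : ρ₀ ≤ u 1 := by rw [hu]; exact le_max_iff.2 hend
  -- the first exit
  obtain ⟨S, hS⟩ : ∃ S : Set ℝ, S = {s | s ∈ Icc (0 : ℝ) 1 ∧ ρ₀ ≤ u s} := ⟨_, rfl⟩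
  have hSc : IsClosed S := by
    rw [hS]
    exact isClosed_Icc.inter (isClosed_le continuous_const huc)
  have hSne : S.Nonempty := ⟨1, by rw [hS]; exact ⟨⟨zero_le_one, le_rfl⟩, hu1⟩⟩
  have hSb : BddBelow S := ⟨0, fun s hs => by rw [hS] at hs; exact hs.1.1⟩
  obtain ⟨s₁, hs₁⟩ : ∃ s₁ : ℝ, s₁ = sInf S := ⟨_, rfl⟩
  have hs₁S : s₁ ∈ S := by rw [hs₁]; exact hSc.csInf_mem hSne hSb
  have hs₁' := hs₁S
  rw [hS] at hs₁'
  obtain ⟨⟨h0, h1⟩, h2⟩ := hs₁'
  have hlt : ∀ s, 0 ≤ s → s < s₁ → u s < ρ₀ := by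
    intro s hs hss
    by_contra hcon
    have h3 : s ∈ S := by rw [hS]; exact ⟨⟨hs, by linarith⟩, not_lt.1 hcon⟩
    have h4 := csInf_le hSb h3
    rw [← hs₁] at h4
    linarith
  have hus₁ : u s₁ = ρ₀ := by
    obtain ⟨s₂, hs₂, h3⟩ := intermediate_value_Icc h0 huc.continuousOn
      (show ρ₀ ∈ Icc (u 0) (u s₁) by rw [hu0]; exact ⟨hρ.le, h2⟩)
    rcases lt_or_eq_of_le hs₂.2 with h4 | h4
    · have := hlt s₂ hs₂.1 h4
      linarith
    · rw [← h4, h3]
  have hle : ∀ s ∈ Icc (0 : ℝ) s₁, u s ≤ ρ₀ := by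
    intro s hs
    rcases lt_or_eq_of_le hs.2 with h4 | h4
    · exact (hlt s hs.1 h4).le
    · rw [h4, hus₁]
  have hdens : ∀ s ∈ Icc (0 : ℝ) s₁, Real.sqrt m * d ≤ Real.sqrt (dens f g (γ s)) := by
    intro s hs
    have h3 := hle s hs
    rw [hu] at h3
    have h4 := hbox (γ s) ((le_max_left _ _).trans h3) ((le_max_right _ _).trans h3)
    have h5 := dens_ge h (γ s)
    have h6 : m * d ^ 2 ≤ dens f g (γ s) :=
      (mul_le_mul_of_nonneg_left h4 h.m0.le).trans h5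
    have h7 : Real.sqrt (m * d ^ 2) = Real.sqrt m * d := by
      rw [Real.sqrt_mul h.m0.le, Real.sqrt_sq hd]
    rw [← h7]
    exact Real.sqrt_le_sqrt h6
  have hcont : Continuous fun s => Real.sqrt (dens f g (γ s)) *
      Real.sqrt ((deriv γ s).1 ^ 2 + (deriv γ s).2 ^ 2) := by
    have := dens_cont h
    fun_prop
  have hlen : (∫ s in (0 : ℝ)..s₁, Real.sqrt (dens f g (γ s)) *
      Real.sqrt ((deriv γ s).1 ^ 2 + (deriv γ s).2 ^ 2)) ≤ len (dens f g) γ := by
    unfold len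
    refine intervalIntegral.integral_mono_interval le_rfl h0 h1 ?_
      (hcont.intervalIntegrable _ _)
    refine Filter.Eventually.of_forall fun s => ?_
    show (0 : ℝ) ≤ _
    positivity
  have key : ∀ F : ℝ → ℝ, Continuous F → (∀ s, |F s| ≤
      Real.sqrt ((deriv γ s).1 ^ 2 + (deriv γ s).2 ^ 2)) →
      |∫ s in (0 : ℝ)..s₁, F s| = ρ₀ → Real.sqrt m * d * ρ₀ ≤ len (dens f g) γ := by
    intro F hF hFb hFi
    refine le_trans ?_ hlen
    rw [← hFi]
    have h3 : |∫ s in (0 : ℝ)..s₁, F s| ≤ ∫ s in (0 : ℝ)..s₁, |F s| :=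
      intervalIntegral.abs_integral_le_integral_abs h0
    have h4 : 0 ≤ Real.sqrt m * d := by positivity
    calc Real.sqrt m * d * |∫ s in (0 : ℝ)..s₁, F s|
        ≤ Real.sqrt m * d * ∫ s in (0 : ℝ)..s₁, |F s| := mul_le_mul_of_nonneg_left h3 h4
      _ = ∫ s in (0 : ℝ)..s₁, Real.sqrt m * d * |F s| := by
          rw [intervalIntegral.integral_const_mul]
      _ ≤ _ := by
          refine intervalIntegral.integral_mono_on h0 ?_ (hcont.intervalIntegrable _ _) ?_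
          · exact (continuous_const.mul hF.abs).intervalIntegrable _ _
          · intro s hs
            exact mul_le_mul (hdens s hs) (hFb s) (abs_nonneg _) (Real.sqrt_nonneg _)
  have e1 := intervalIntegral.integral_eq_sub_of_hasDerivAt (a := 0) (b := s₁) (fun s _ => hd1 s)
    (c1.intervalIntegrable _ _)
  have e2 := intervalIntegral.integral_eq_sub_of_hasDerivAt (a := 0) (b := s₁) (fun s _ => hd2 s)
    (c2.intervalIntegrable _ _)
  have hmax : |(γ s₁).1 - (γ 0).1| = ρ₀ ∨ |(γ s₁).2 - (γ 0).2| = ρ₀ := by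
    rw [hu] at hus₁
    have hus₁ : max |(γ s₁).1 - (γ 0).1| |(γ s₁).2 - (γ 0).2| = ρ₀ := hus₁
    rcases max_choice |(γ s₁).1 - (γ 0).1| |(γ s₁).2 - (γ 0).2| with h3 | h3
    · left; rw [← h3, hus₁]
    · right; rw [← h3, hus₁]
  rcases hmax with h3 | h3
  · refine key _ c1 (fun s => ?_) (by rw [e1, h3])
    rw [← Real.sqrt_sq_eq_abs]
    exact Real.sqrt_le_sqrt (by nlinarith [sq_nonneg (deriv γ s).2])
  · refine key _ c2 (fun s => ?_) (by rw [e2, h3])
    rw [← Real.sqrt_sq_eq_abs]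
    exact Real.sqrt_le_sqrt (by nlinarith [sq_nonneg (deriv γ s).1])

end Pool.Agent.N407.LS
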